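import Pool.Agent.Helper5.Hex.Per

/-!
# MP_40e762_an: the constant of the hexagonal conjecture is a constant of periodic packings

Let `Λ` be the universal constant with `𝔏_k(Ω) |Ω| / k → Λ`. For EVERY plane lattice `ℤ v + ℤ w`, `Λ`
is the infimum, and the limit as `k → ∞`, of `max λ(D_i) |det(v, w)| / k` over all packings
`D_1, ..., D_k` of the torus (nonempty open sets of any shape with pairwise disjoint translates).
Hence, for every fixed lattice and every `K`, the hexagonal conjecture is equivalent to the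
inequalities `max λ(D_i) |det(v, w)| ≥ k λ(hexagon)` for all packings of this torus by `k > K` sets.
-/

open MeasureTheory Filter Topology

namespace Pool.Agent.Results.MP_40e762_an.PeriodicFormula

/-- The first Dirichlet eigenvalue of an open plane set, as the infimum of the Rayleigh quotient
over the nonzero compactly supported `C¹` functions with support inside the set. -/
noncomputable def eig (D : Set (EuclideanSpace ℝ (Fin 2))) : ℝ :=
  sInf {r : ℝ | ∃ φ : EuclideanSpace ℝ (Fin 2) → ℝ,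
    ContDiff ℝ 1 φ ∧ HasCompactSupport φ ∧ tsupport φ ⊆ D ∧ φ ≠ 0 ∧
    r = (∫ x, ‖fderiv ℝ φ x‖ ^ 2) / (∫ x, φ x ^ 2)}

/-- The minimal `k`-partition energy `𝔏_k(Ω)` (max version). -/
noncomputable def minEnergy (Ω : Set (EuclideanSpace ℝ (Fin 2))) (k : ℕ) : ℝ :=
  sInf {r : ℝ | ∃ D : Fin k → Set (EuclideanSpace ℝ (Fin 2)),
    (∀ i, IsOpen (D i) ∧ (D i).Nonempty ∧ D i ⊆ Ω) ∧
    Pairwise (Function.onFun Disjoint D) ∧ r = ⨆ i, eig (D i)}

/-- The open regular hexagon of side 1. -/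
def hexagon : Set (EuclideanSpace ℝ (Fin 2)) :=
  {x : EuclideanSpace ℝ (Fin 2) | ∀ j : Fin 3,
    |inner ℝ x (EuclideanSpace.single 0 (Real.cos (((j : ℕ) : ℝ) * Real.pi / 3))
      + EuclideanSpace.single 1 (Real.sin (((j : ℕ) : ℝ) * Real.pi / 3)))| < Real.sqrt 3 / 2}

/-- The first Dirichlet eigenvalue of the regular hexagon of area 1 (by scaling). -/
noncomputable def hexConst : ℝ := eig hexagon * (volume hexagon).toReal

/-- The hexagonal conjecture (Q1). -/
def HexagonalConjecture : Prop :=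
  ∀ Ω : Set (EuclideanSpace ℝ (Fin 2)), IsOpen Ω → IsConnected Ω → Bornology.IsBounded Ω →
    Tendsto (fun k : ℕ => minEnergy Ω k / (k : ℝ)) atTop (𝓝 (hexConst / (volume Ω).toReal))

/-- The `D i` are nonempty open sets, and all their translates under the lattice `ℤ v + ℤ w` are
pairwise disjoint. -/
def PeriodicPacking (v w : EuclideanSpace ℝ (Fin 2)) {k : ℕ}
    (D : Fin k → Set (EuclideanSpace ℝ (Fin 2))) : Prop :=
  (∀ i, IsOpen (D i) ∧ (D i).Nonempty) ∧
    ∀ (i j : Fin k) (m n : ℤ), (i, m, n) ≠ (j, 0, 0) →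
      Disjoint (D i) ((fun z => z + ((m : ℝ) • v + (n : ℝ) • w)) '' D j)

/-- the area of a fundamental domain of the lattice `ℤ v + ℤ w` -/
noncomputable def covol (v w : EuclideanSpace ℝ (Fin 2)) : ℝ := |v 0 * w 1 - v 1 * w 0|

lemma det_ne {v w : EuclideanSpace ℝ (Fin 2)} (h : LinearIndependent ℝ ![v, w]) :
    v 0 * w 1 - v 1 * w 0 ≠ 0 := by
  intro hd
  rw [LinearIndependent.pair_iff] at h
  by_cases hv0 : v 0 = 0
  · by_cases hv1 : v 1 = 0
    · have h1 := (h 1 0 (by
        ext i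
        fin_cases i
        · simp [hv0]
        · simp [hv1])).1
      exact one_ne_zero h1
    · have h1 := (h (w 1) (-v 1) (by
        ext i
        fin_cases i
        · simp only [Fin.zero_eta, PiLp.add_apply, PiLp.smul_apply, smul_eq_mul, PiLp.zero_apply]
          linarith
        · simp only [Fin.mk_one, PiLp.add_apply, PiLp.smul_apply, smul_eq_mul, PiLp.zero_apply]
          ring)).2
      exact hv1 (neg_eq_zero.1 h1)
  · have h1 := (h (w 0) (-v 0) (by
      ext i
      fin_cases i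
      · simp only [Fin.zero_eta, PiLp.add_apply, PiLp.smul_apply, smul_eq_mul, PiLp.zero_apply]
        ring
      · simp only [Fin.mk_one, PiLp.add_apply, PiLp.smul_apply, smul_eq_mul, PiLp.zero_apply]
        linarith)).2
    exact hv0 (neg_eq_zero.1 h1)

/-- There is `Λ > 0` with `𝔏_k(Ω) / k → Λ / |Ω|` for all nonempty open `Ω` of finite area, and for
every plane lattice: (a) `max λ(D_i) * covolume ≥ Λ k` for every periodic packing with `k ≥ 1` sets
per period; (b) for every `ε > 0` and all large `k` there is one with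
`max λ(D_i) * covolume ≤ (Λ + ε) k`; (c) for every `K`, the hexagonal conjecture is equivalent to
`max λ(D_i) * covolume ≥ λ(hexagon) k` for all periodic packings with `k > K` sets per period. -/
theorem result : ∃ Λ : ℝ, 0 < Λ ∧
    (∀ Ω : Set (EuclideanSpace ℝ (Fin 2)), IsOpen Ω → Ω.Nonempty → volume Ω ≠ ⊤ →
      Tendsto (fun k : ℕ => minEnergy Ω k / (k : ℝ)) atTop (𝓝 (Λ / (volume Ω).toReal))) ∧
    ∀ v w : EuclideanSpace ℝ (Fin 2), LinearIndependent ℝ ![v, w] →
      (∀ (k : ℕ) (D : Fin k → Set (EuclideanSpace ℝ (Fin 2))), 0 < k → PeriodicPacking v w D →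
        Λ * k ≤ (⨆ i, eig (D i)) * covol v w) ∧
      (∀ ε : ℝ, 0 < ε → ∃ k₀ : ℕ, ∀ k : ℕ, k₀ ≤ k →
        ∃ D : Fin k → Set (EuclideanSpace ℝ (Fin 2)), PeriodicPacking v w D ∧
          (⨆ i, eig (D i)) * covol v w ≤ (Λ + ε) * k) ∧
      ∀ K : ℕ, (HexagonalConjecture ↔
        ∀ (k : ℕ) (D : Fin k → Set (EuclideanSpace ℝ (Fin 2))), K < k → PeriodicPacking v w D →
          hexConst * k ≤ (⨆ i, eig (D i)) * covol v w) := by
  have main : ∀ Ω : Set (EuclideanSpace ℝ (Fin 2)), IsOpen Ω → Ω.Nonempty → volume Ω ≠ ⊤ →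
      Tendsto (fun k : ℕ => minEnergy Ω k / (k : ℝ)) atTop
        (𝓝 (Helper5.Hex.Lam / (volume Ω).toReal)) :=
    fun Ω h1 h2 h3 => Helper5.Hex.tendsto_minEnergy h1 h2 h3
  have hle : Helper5.Hex.Lam ≤ hexConst := Helper5.Hex.Lam_le_hex
  -- the conjecture says that the constant is the hexagonal one
  have hiff : HexagonalConjecture ↔ Helper5.Hex.Lam = hexConst := by
    constructor
    · intro hQ
      have hb : IsConnected (Metric.ball (0 : EuclideanSpace ℝ (Fin 2)) 1) :=
        Metric.isConnected_ball one_pos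
      have hf : volume (Metric.ball (0 : EuclideanSpace ℝ (Fin 2)) 1) ≠ ⊤ :=
        (Metric.isBounded_ball.measure_lt_top).ne
      have h4 := tendsto_nhds_unique (main _ Metric.isOpen_ball hb.nonempty hf)
        (hQ _ Metric.isOpen_ball hb Metric.isBounded_ball)
      have h5 := Helper5.Hex.volume_toReal_pos Metric.isOpen_ball hb.nonempty hf
      exact (div_left_inj' h5.ne').1 h4
    · intro h Ω g1 g2 g3
      rw [← h]
      exact main Ω g1 g2.nonempty (g3.measure_lt_top).ne
  refine ⟨Helper5.Hex.Lam, Helper5.Hex.Lam_pos, main, fun v w hvw => ?_⟩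
  have hd := det_ne hvw
  have ha : ∀ (k : ℕ) (D : Fin k → Set (EuclideanSpace ℝ (Fin 2))), 0 < k →
      PeriodicPacking v w D → Helper5.Hex.Lam * k ≤ (⨆ i, eig (D i)) * covol v w :=
    fun k D hk h => Helper5.Hex.Lam_le_per hd hk ⟨fun i => (h.1 i).1, fun i => (h.1 i).2, h.2⟩
  have hb : ∀ ε : ℝ, 0 < ε → ∃ k₀ : ℕ, ∀ k : ℕ, k₀ ≤ k →
      ∃ D : Fin k → Set (EuclideanSpace ℝ (Fin 2)), PeriodicPacking v w D ∧
        (⨆ i, eig (D i)) * covol v w ≤ (Helper5.Hex.Lam + ε) * k := by
    intro ε hε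
    obtain ⟨k₀, hk₀⟩ := Helper5.Hex.exists_per hd hε
    refine ⟨k₀, fun k hk => ?_⟩
    obtain ⟨D, hD, hD2⟩ := hk₀ k hk
    exact ⟨D, ⟨fun i => ⟨hD.op i, hD.ne i⟩, hD.dis⟩, hD2⟩
  refine ⟨ha, hb, fun K => ?_⟩
  rw [hiff]
  constructor
  · intro h k D hk hD
    rw [← h]
    exact ha k D (by omega) hD
  · intro h
    refine le_antisymm hle (le_of_forall_pos_le_add fun ε hε => ?_)
    obtain ⟨k₀, hk₀⟩ := hb ε hε
    obtain ⟨D, hD, hD2⟩ := hk₀ (max k₀ (K + 1)) (le_max_left _ _)
    have h1 := h _ D (lt_of_lt_of_le (Nat.lt_succ_self K) (le_max_right _ _)) hD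
    have h2 : (0 : ℝ) < ((max k₀ (K + 1) : ℕ) : ℝ) := by
      exact_mod_cast lt_of_lt_of_le (Nat.succ_pos K) (le_max_right k₀ (K + 1))
    exact le_of_mul_le_mul_right (h1.trans hD2) h2

end Pool.Agent.Results.MP_40e762_an.PeriodicFormula
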