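import Pool.Agent.HXL.Fin
import Pool.Agent.HXL.Fin2
import Pool.Agent.HXL.Fin3

/-!
# MP_40e762_an: the hexagonal conjecture for periodic partitions with a short period

Let `v, w` be linearly independent plane vectors and let `D₁, ..., D_k` be nonempty open sets (of any
shape) such that all their translates under the lattice `ℤ v + ℤ w` are pairwise disjoint. Let
`A = |det(v, w)| / k` be the area per cell. If the lattice contains a nonzero vector `p` with
`|p|² ≤ 2 A` (for the honeycomb and its shortest period `|p|² = 1.155 A`), or if `k ≤ 2`, then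
`max λ(D_i) A ≥ λ(hexagon of area 1)`. The number `k` of cells per period is arbitrary, and the bound
is attained by the honeycomb for every `k`.
-/

open MeasureTheory Filter Topology

namespace Pool.Agent.Results.MP_40e762_an.ShortPeriod

/-- The first Dirichlet eigenvalue of an open plane set, as the infimum of the Rayleigh quotient
over the nonzero compactly supported `C¹` functions with support inside the set. -/
noncomputable def eig (D : Set (EuclideanSpace ℝ (Fin 2))) : ℝ :=
  sInf {r : ℝ | ∃ φ : EuclideanSpace ℝ (Fin 2) → ℝ,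
    ContDiff ℝ 1 φ ∧ HasCompactSupport φ ∧ tsupport φ ⊆ D ∧ φ ≠ 0 ∧
    r = (∫ x, ‖fderiv ℝ φ x‖ ^ 2) / (∫ x, φ x ^ 2)}

/-- The open regular hexagon of side 1. -/
def hexagon : Set (EuclideanSpace ℝ (Fin 2)) :=
  {x : EuclideanSpace ℝ (Fin 2) | ∀ j : Fin 3,
    |inner ℝ x (EuclideanSpace.single 0 (Real.cos (((j : ℕ) : ℝ) * Real.pi / 3))
      + EuclideanSpace.single 1 (Real.sin (((j : ℕ) : ℝ) * Real.pi / 3)))| < Real.sqrt 3 / 2}

/-- The first Dirichlet eigenvalue of the regular hexagon of area 1 (by scaling). -/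
noncomputable def hexConst : ℝ := eig hexagon * (volume hexagon).toReal

/-- `D` is a nonempty open set whose translates under the lattice `ℤ v + ℤ w` are pairwise
disjoint. -/
def LatticePacking (v w : EuclideanSpace ℝ (Fin 2)) (D : Set (EuclideanSpace ℝ (Fin 2))) : Prop :=
  LinearIndependent ℝ ![v, w] ∧ IsOpen D ∧ D.Nonempty ∧
    ∀ m n : ℤ, (m, n) ≠ (0, 0) → Disjoint D ((fun z => z + ((m : ℝ) • v + (n : ℝ) • w)) '' D)

/-- The `D i` are nonempty open sets, and all their translates under the lattice `ℤ v + ℤ w` are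
pairwise disjoint. -/
def PeriodicPacking (v w : EuclideanSpace ℝ (Fin 2)) {k : ℕ}
    (D : Fin k → Set (EuclideanSpace ℝ (Fin 2))) : Prop :=
  LinearIndependent ℝ ![v, w] ∧ (∀ i, IsOpen (D i) ∧ (D i).Nonempty) ∧
    ∀ (i j : Fin k) (m n : ℤ), (i, m, n) ≠ (j, 0, 0) →
      Disjoint (D i) ((fun z => z + ((m : ℝ) • v + (n : ℝ) • w)) '' D j)

/-- the area of a fundamental domain of the lattice `ℤ v + ℤ w` -/
noncomputable def covol (v w : EuclideanSpace ℝ (Fin 2)) : ℝ := |v 0 * w 1 - v 1 * w 0|

/-- The lattice `ℤ v + ℤ w` contains a nonzero vector whose squared length is at most twice the area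
per cell, when there are `k` cells per period. -/
def HasShortPeriod (v w : EuclideanSpace ℝ (Fin 2)) (k : ℕ) : Prop :=
  ∃ m n : ℤ, (m, n) ≠ (0, 0) ∧ ‖(m : ℝ) • v + (n : ℝ) • w‖ ^ 2 ≤ 2 * (covol v w / k)

lemma det_ne {v w : EuclideanSpace ℝ (Fin 2)} (h : LinearIndependent ℝ ![v, w]) :
    v 0 * w 1 - v 1 * w 0 ≠ 0 := by
  intro hd
  rw [LinearIndependent.pair_iff] at h
  by_cases hv0 : v 0 = 0
  · by_cases hv1 : v 1 = 0
    · have h1 := (h 1 0 (by
        ext i
        fin_cases i
        · simp [hv0]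
        · simp [hv1])).1
      exact one_ne_zero h1
    · have h1 := (h (w 1) (-v 1) (by
        ext i
        fin_cases i
        · simp only [Fin.zero_eta, PiLp.add_apply, PiLp.smul_apply, smul_eq_mul, PiLp.zero_apply]
          linarith
        · simp only [Fin.mk_one, PiLp.add_apply, PiLp.smul_apply, smul_eq_mul, PiLp.zero_apply]
          ring)).2
      exact hv1 (neg_eq_zero.1 h1)
  · have h1 := (h (w 0) (-v 0) (by
      ext i
      fin_cases i
      · simp only [Fin.zero_eta, PiLp.add_apply, PiLp.smul_apply, smul_eq_mul, PiLp.zero_apply]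
        ring
      · simp only [Fin.mk_one, PiLp.add_apply, PiLp.smul_apply, smul_eq_mul, PiLp.zero_apply]
        linarith)).2
    exact hv0 (neg_eq_zero.1 h1)

/-- The case of one cell per period, with equality for the honeycomb. -/
theorem one_cell :
    (∀ (v w : EuclideanSpace ℝ (Fin 2)) (D : Set (EuclideanSpace ℝ (Fin 2))),
      LatticePacking v w D → hexConst ≤ eig D * covol v w) ∧
    ∃ v w : EuclideanSpace ℝ (Fin 2), LatticePacking v w hexagon ∧
      eig hexagon * covol v w = hexConst ∧ ‖v‖ ^ 2 ≤ 2 * covol v w := by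
  refine ⟨fun v w D h => ?_, ?_⟩
  · obtain ⟨hli, hD, hn, hdis⟩ := h
    refine HXL.lattice_case (det_ne hli) hD hn fun m n hmn z hz hz2 => ?_
    have h1 : (m, n) ≠ (0, 0) := by
      intro h0
      rw [Prod.mk.injEq] at h0
      rcases hmn with h2 | h2
      · exact h2 h0.1
      · exact h2 h0.2
    exact Set.disjoint_left.1 (hdis m n h1) hz2 ⟨z, hz, rfl⟩
  · have hs : 0 < Real.sqrt 3 := Real.sqrt_pos.2 (by norm_num)
    obtain ⟨v, hv⟩ : ∃ v : EuclideanSpace ℝ (Fin 2), v = Helper5.Hex.hexL ![1, 0] := ⟨_, rfl⟩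
    obtain ⟨w, hw⟩ : ∃ w : EuclideanSpace ℝ (Fin 2), w = Helper5.Hex.hexL ![0, 1] := ⟨_, rfl⟩
    have v0 : v 0 = Real.sqrt 3 := by
      rw [hv, Helper5.Hex.hexL_zero]; simp
    have v1 : v 1 = 0 := by
      rw [hv, Helper5.Hex.hexL_one]; simp
    have w0 : w 0 = Real.sqrt 3 / 2 := by
      rw [hw, Helper5.Hex.hexL_zero]; simp; ring
    have w1 : w 1 = 3 / 2 := by
      rw [hw, Helper5.Hex.hexL_one]; simp
    have hshift : ∀ m n : ℤ, ((m : ℝ) • v + (n : ℝ) • w) = Helper5.Hex.hexL ![m, n] := by
      intro m n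
      ext i
      fin_cases i
      · simp only [Fin.zero_eta, PiLp.add_apply, PiLp.smul_apply, smul_eq_mul]
        rw [Helper5.Hex.hexL_zero, v0, w0]
        simp
        ring
      · simp only [Fin.mk_one, PiLp.add_apply, PiLp.smul_apply, smul_eq_mul]
        rw [Helper5.Hex.hexL_one, v1, w1]
        simp
        ring
    refine ⟨v, w, ⟨?_, Helper5.Hex.isOpen_hexagon, ⟨0, Helper5.Hex.zero_mem_hexagon⟩, ?_⟩, ?_⟩
    · rw [LinearIndependent.pair_iff]
      intro s t hst
      have e0 := congrArg (fun z : EuclideanSpace ℝ (Fin 2) => z 0) hst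
      have e1 := congrArg (fun z : EuclideanSpace ℝ (Fin 2) => z 1) hst
      simp only [PiLp.add_apply, PiLp.smul_apply, smul_eq_mul, PiLp.zero_apply] at e0 e1
      rw [v0, w0] at e0
      rw [v1, w1] at e1
      have ht : t = 0 := by linarith
      rw [ht] at e0
      have hs0 : s * Real.sqrt 3 = 0 := by linarith
      rcases mul_eq_zero.1 hs0 with h | h
      · exact ⟨h, ht⟩
      · exact absurd h hs.ne'
    · intro m n hmn
      rw [Set.disjoint_left]
      rintro x hx ⟨z, hz, hzx⟩
      simp only at hzx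
      rw [hshift m n] at hzx
      have hne : (![m, n] : Fin 2 → ℤ) ≠ ![0, 0] := by
        intro h0
        apply hmn
        have a1 := congrFun h0 0
        have a2 := congrFun h0 1
        simp at a1 a2
        rw [a1, a2]
      have h00 : Helper5.Hex.hexL ![0, 0] = 0 := by
        ext i
        fin_cases i
        · simp [Helper5.Hex.hexL_zero]
        · simp [Helper5.Hex.hexL_one]
      have q1 : x - Helper5.Hex.hexL ![m, n] ∈ Helper5.Hex.hexagon := by
        rw [← hzx, add_sub_cancel_right]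
        exact hz
      have q2 : x - Helper5.Hex.hexL ![0, 0] ∈ Helper5.Hex.hexagon := by
        rw [h00, sub_zero]
        exact hx
      exact Helper5.Hex.hex_dis _ _ hne x q1 q2
    · have hc : covol v w = 3 * Real.sqrt 3 / 2 := by
        unfold covol
        rw [v0, v1, w0, w1]
        rw [abs_of_pos (by nlinarith)]
        ring
      have hvol : (volume hexagon).toReal = 3 * Real.sqrt 3 / 2 := HXL.volume_hexagon
      refine ⟨?_, ?_⟩
      · unfold hexConst
        rw [hc, hvol]
      · rw [hc, EuclideanSpace.norm_sq_eq, Fin.sum_univ_two, v0, v1]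
        simp only [Real.norm_eq_abs, sq_abs]
        rw [Real.sq_sqrt (by norm_num)]
        nlinarith [Real.sq_sqrt (show (0 : ℝ) ≤ 3 by norm_num), hs]

lemma le_sup {k : ℕ} {D : Fin k → Set (EuclideanSpace ℝ (Fin 2))} {C A : ℝ} (hA : 0 ≤ A)
    (h : ∃ i, C ≤ eig (D i) * A) : C ≤ (⨆ i, eig (D i)) * A := by
  obtain ⟨i, hi⟩ := h
  refine hi.trans (mul_le_mul_of_nonneg_right ?_ hA)
  exact le_ciSup (f := fun i => eig (D i)) (Set.finite_range _).bddAbove i

/-- The inequality for periodic packings. -/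
theorem periodic (k : ℕ) (hk : 0 < k) (v w : EuclideanSpace ℝ (Fin 2))
    (D : Fin k → Set (EuclideanSpace ℝ (Fin 2))) (h : PeriodicPacking v w D)
    (hs : k ≤ 2 ∨ HasShortPeriod v w k) : hexConst ≤ (⨆ i, eig (D i)) * (covol v w / k) := by
  obtain ⟨hli, hD, hdis⟩ := h
  have hself : ∀ i, ∀ m n : ℤ, (m ≠ 0 ∨ n ≠ 0) → ∀ z ∈ D i,
      z + ((m : ℝ) • v + (n : ℝ) • w) ∉ D i := by
    intro i m n hmn z hz hz2
    have h1 : (i, m, n) ≠ (i, 0, 0) := by
      intro h0
      rw [Prod.mk.injEq, Prod.mk.injEq] at h0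
      rcases hmn with h2 | h2
      · exact h2 h0.2.1
      · exact h2 h0.2.2
    exact Set.disjoint_left.1 (hdis i i m n h1) hz2 ⟨z, hz, rfl⟩
  have hcross : ∀ i j, i ≠ j → ∀ m n : ℤ, ∀ z ∈ D i, z + ((m : ℝ) • v + (n : ℝ) • w) ∉ D j := by
    intro i j hij m n z hz hz2
    have h1 : (j, m, n) ≠ (i, 0, 0) := by
      intro h0
      rw [Prod.mk.injEq] at h0
      exact hij h0.1.symm
    exact Set.disjoint_left.1 (hdis j i m n h1) hz2 ⟨z, hz, rfl⟩
  have hA : 0 ≤ covol v w / k := div_nonneg (abs_nonneg _) (Nat.cast_nonneg _)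
  refine le_sup hA ?_
  rcases hs with hk2 | ⟨m0, n0, h0, hsh⟩
  · obtain rfl | rfl : k = 1 ∨ k = 2 := by omega
    · refine ⟨0, ?_⟩
      have h1 := HXL.lattice_case (det_ne hli) (hD 0).1 (hD 0).2 (hself 0)
      rw [Nat.cast_one, div_one]
      exact h1
    · have h1 := HXL.two_cells (det_ne hli) (hD 0).1 (hD 1).1 (hD 0).2 (hD 1).2 (hself 0) (hself 1)
        (hcross 0 1 (by decide))
      have h2 : hexConst ≤ max (eig (D 0)) (eig (D 1)) * (covol v w / 2) := h1
      rw [Nat.cast_ofNat]
      rcases le_total (eig (D 0)) (eig (D 1)) with h3 | h3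
      · rw [max_eq_right h3] at h2
        exact ⟨1, h2⟩
      · rw [max_eq_left h3] at h2
        exact ⟨0, h2⟩
  · have hne : m0 ≠ 0 ∨ n0 ≠ 0 := by
      by_contra hc
      push Not at hc
      exact h0 (by rw [hc.1, hc.2])
    have hcard : Fintype.card (Fin k) = k := Fintype.card_fin k
    have hnorm : ‖(m0 : ℝ) • v + (n0 : ℝ) • w‖ ^ 2
        = (m0 * v 0 + n0 * w 0) ^ 2 + (m0 * v 1 + n0 * w 1) ^ 2 := by
      rw [EuclideanSpace.norm_sq_eq, Fin.sum_univ_two]
      simp only [PiLp.add_apply, PiLp.smul_apply, smul_eq_mul, Real.norm_eq_abs, sq_abs]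
    rw [hnorm] at hsh
    have h1 := HXL.k_cells (ι := Fin k) (by rw [hcard]; exact hk) (det_ne hli)
      (fun i => (hD i).1) (fun i => (hD i).2) hself hcross hne (by rw [hcard]; exact hsh)
    rw [hcard] at h1
    exact h1

/-- The honeycomb attains the bound, with any number of cells per period and a short period. -/
theorem sharp (k : ℕ) (hk : 0 < k) : ∃ (v w : EuclideanSpace ℝ (Fin 2))
    (D : Fin k → Set (EuclideanSpace ℝ (Fin 2))), PeriodicPacking v w D ∧ HasShortPeriod v w k ∧
      (⨆ i, eig (D i)) * (covol v w / k) = hexConst := by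
  obtain ⟨v, w, ⟨hli, ho, hn, hdis⟩, heq, hv⟩ := one_cell.2
  have hk' : (0 : ℝ) < k := by exact_mod_cast hk
  obtain ⟨D, hD⟩ : ∃ D : Fin k → Set (EuclideanSpace ℝ (Fin 2)),
      D = fun i : Fin k => Helper5.Hex.sim 1 (((i : ℕ) : ℝ) • w) ⁻¹' hexagon := ⟨_, rfl⟩
  have hmem : ∀ i x, x ∈ D i ↔ x - ((i : ℕ) : ℝ) • w ∈ hexagon := by
    intro i x
    rw [hD]
    simp only [Set.mem_preimage]
    unfold Helper5.Hex.sim
    rw [inv_one, one_smul]
  have hkey : ∀ m n : ℤ, (m ≠ 0 ∨ n ≠ 0) → ∀ x y : EuclideanSpace ℝ (Fin 2), x ∈ hexagon →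
      y ∈ hexagon → x ≠ y + ((m : ℝ) • v + (n : ℝ) • w) := by
    intro m n hmn x y hx hy hxy
    have h1 : (m, n) ≠ (0, 0) := by
      intro h0
      rw [Prod.mk.injEq] at h0
      rcases hmn with h2 | h2
      · exact h2 h0.1
      · exact h2 h0.2
    exact Set.disjoint_left.1 (hdis m n h1) hx ⟨y, hy, hxy.symm⟩
  have hcov : covol v ((k : ℝ) • w) / k = covol v w := by
    unfold covol
    simp only [PiLp.smul_apply, smul_eq_mul]
    have : v 0 * (k * w 1) - v 1 * (k * w 0) = k * (v 0 * w 1 - v 1 * w 0) := by ring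
    rw [this, abs_mul, abs_of_pos hk']
    field_simp
  have htp : PeriodicPacking v ((k : ℝ) • w) D := by
    refine ⟨?_, ?_, ?_⟩
    · rw [LinearIndependent.pair_iff] at hli ⊢
      intro s t hst
      rw [smul_smul] at hst
      have h1 := hli s (t * k) hst
      refine ⟨h1.1, ?_⟩
      rcases mul_eq_zero.1 h1.2 with h | h
      · exact h
      · exact absurd h hk'.ne'
    · intro i
      rw [hD]
      exact ⟨Helper5.Hex.isOpen_sim_preimage ho 1 _,
        Helper5.Hex.nonempty_sim_preimage hn one_pos _⟩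
    · intro i j m n hne
      rw [Set.disjoint_left]
      rintro x hx ⟨z, hz, hzx⟩
      simp only at hzx
      rw [hmem] at hx hz
      refine hkey m ((j : ℕ) - (i : ℕ) + n * k) ?_ _ _ hx hz ?_
      · by_contra hc
        push Not at hc
        apply hne
        have hi := i.2
        have hj := j.2
        have h2 : n = 0 := by
          by_contra hn0
          rcases lt_or_gt_of_ne hn0 with h | h
          · have : n * (k : ℤ) ≤ -1 * k := by
              apply mul_le_mul_of_nonneg_right _ (by omega)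
              omega
            omega
          · have : 1 * (k : ℤ) ≤ n * k := by
              apply mul_le_mul_of_nonneg_right _ (by omega)
              omega
            omega
        rw [h2] at hc
        have h3 : (i : ℕ) = (j : ℕ) := by omega
        rw [Fin.ext h3, hc.1, h2]
      · rw [← hzx]
        push_cast
        module
  have hsp : HasShortPeriod v ((k : ℝ) • w) k := by
    refine ⟨1, 0, by simp, ?_⟩
    rw [hcov]
    simpa using hv
  refine ⟨v, (k : ℝ) • w, D, htp, hsp, le_antisymm ?_ (periodic k hk _ _ _ htp (Or.inr hsp))⟩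
  rw [hcov]
  have hm : (⨆ i, eig (D i)) ≤ eig hexagon := by
    have hne : Nonempty (Fin k) := ⟨⟨0, hk⟩⟩
    refine ciSup_le fun i => ?_
    rw [hD]
    have := Helper5.Hex.eig_sim_le ho hn (r := 1) one_pos (((i : ℕ) : ℝ) • w)
    rw [one_pow, div_one] at this
    exact this
  calc (⨆ i, eig (D i)) * covol v w ≤ eig hexagon * covol v w :=
        mul_le_mul_of_nonneg_right hm (abs_nonneg _)
    _ = hexConst := heq

/-- The hexagonal conjecture for periodic partitions and packings with a short period, or with at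
most two cells per period, and equality for the honeycomb. -/
theorem result :
    (∀ (k : ℕ) (v w : EuclideanSpace ℝ (Fin 2)) (D : Fin k → Set (EuclideanSpace ℝ (Fin 2))),
      0 < k → PeriodicPacking v w D → (HasShortPeriod v w k ∨ k ≤ 2) →
        hexConst ≤ (⨆ i, eig (D i)) * (covol v w / k)) ∧
    ∀ k : ℕ, 0 < k → ∃ (v w : EuclideanSpace ℝ (Fin 2))
      (D : Fin k → Set (EuclideanSpace ℝ (Fin 2))), PeriodicPacking v w D ∧ HasShortPeriod v w k ∧
        (⨆ i, eig (D i)) * (covol v w / k) = hexConst :=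
  ⟨fun k v w D hk h hs => periodic k hk v w D h hs.symm, sharp⟩

end Pool.Agent.Results.MP_40e762_an.ShortPeriod
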