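import Pool.Agent.Helper5.Hex.Rate

/-!
# MP_40e762_an: the hexagonal conjecture as a family of inequalities on the unit square

The hexagonal conjecture (asymptotic, for all bounded domains) is equivalent to the non-asymptotic
inequalities `𝔏_m(Q) ≥ m λ(hexagon)`, `m ≥ 1`, for the unit square `Q`. Moreover `𝔏_m(Q)` is
`Λ m + O(m^(2/3))` with nonnegative error.
-/

open MeasureTheory Filter Topology

namespace Pool.Agent.Results.MP_40e762_an.SquareCriterion

/-- The first Dirichlet eigenvalue of an open plane set, as the infimum of the Rayleigh quotient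
over the nonzero compactly supported `C¹` functions with support inside the set. -/
noncomputable def eig (D : Set (EuclideanSpace ℝ (Fin 2))) : ℝ :=
  sInf {r : ℝ | ∃ φ : EuclideanSpace ℝ (Fin 2) → ℝ,
    ContDiff ℝ 1 φ ∧ HasCompactSupport φ ∧ tsupport φ ⊆ D ∧ φ ≠ 0 ∧
    r = (∫ x, ‖fderiv ℝ φ x‖ ^ 2) / (∫ x, φ x ^ 2)}

/-- The minimal `k`-partition energy `𝔏_k(Ω)` (max version). -/
noncomputable def minEnergy (Ω : Set (EuclideanSpace ℝ (Fin 2))) (k : ℕ) : ℝ :=
  sInf {r : ℝ | ∃ D : Fin k → Set (EuclideanSpace ℝ (Fin 2)),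
    (∀ i, IsOpen (D i) ∧ (D i).Nonempty ∧ D i ⊆ Ω) ∧
    Pairwise (Function.onFun Disjoint D) ∧ r = ⨆ i, eig (D i)}

/-- The open regular hexagon of side 1. -/
def hexagon : Set (EuclideanSpace ℝ (Fin 2)) :=
  {x : EuclideanSpace ℝ (Fin 2) | ∀ j : Fin 3,
    |inner ℝ x (EuclideanSpace.single 0 (Real.cos (((j : ℕ) : ℝ) * Real.pi / 3))
      + EuclideanSpace.single 1 (Real.sin (((j : ℕ) : ℝ) * Real.pi / 3)))| < Real.sqrt 3 / 2}

/-- The first Dirichlet eigenvalue of the regular hexagon of area 1 (by scaling). -/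
noncomputable def hexConst : ℝ := eig hexagon * (volume hexagon).toReal

/-- The open unit square. -/
def unitSquare : Set (EuclideanSpace ℝ (Fin 2)) := {x | ∀ i, 0 < x i ∧ x i < 1}

/-- The hexagonal conjecture (Q1). -/
def HexagonalConjecture : Prop :=
  ∀ Ω : Set (EuclideanSpace ℝ (Fin 2)), IsOpen Ω → IsConnected Ω → Bornology.IsBounded Ω →
    Tendsto (fun k : ℕ => minEnergy Ω k / (k : ℝ)) atTop (𝓝 (hexConst / (volume Ω).toReal))

lemma unitSquare_eq : unitSquare = Helper5.Hex.sq 0 1 := by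
  ext x
  simp [unitSquare, Helper5.Hex.sq]

/-- `𝔏_m(Q) = Λ m + O(m^(2/3))` from above, `≥ Λ m`, for the unit square `Q`; and the hexagonal
conjecture holds if and only if every family of `m ≥ 1` pairwise disjoint nonempty open subsets
of the unit square has a member with first eigenvalue at least `m` times that of the regular
hexagon of area 1. -/
theorem result :
    (∃ Λ C : ℝ, ∀ m : ℕ, 1 ≤ m →
      Λ * m ≤ minEnergy unitSquare m ∧
      minEnergy unitSquare m ≤ Λ * m + C * (m : ℝ) ^ (2 / 3 : ℝ)) ∧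
    (HexagonalConjecture ↔ ∀ m : ℕ, 1 ≤ m → ∀ D : Fin m → Set (EuclideanSpace ℝ (Fin 2)),
      (∀ i, IsOpen (D i) ∧ (D i).Nonempty ∧ D i ⊆ unitSquare) →
      Pairwise (Function.onFun Disjoint D) → ∃ i, hexConst * m ≤ eig (D i)) := by
  have main : ∀ Ω : Set (EuclideanSpace ℝ (Fin 2)), IsOpen Ω → Ω.Nonempty → volume Ω ≠ ⊤ →
      Tendsto (fun k : ℕ => minEnergy Ω k / (k : ℝ)) atTop
        (𝓝 (Helper5.Hex.Lam / (volume Ω).toReal)) :=
    fun Ω h1 h2 h3 => Helper5.Hex.tendsto_minEnergy h1 h2 h3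
  have hle : Helper5.Hex.Lam ≤ hexConst := Helper5.Hex.Lam_le_hex
  have hlow : ∀ m : ℕ, 1 ≤ m → Helper5.Hex.Lam * m ≤ minEnergy unitSquare m := by
    intro m hm
    rw [unitSquare_eq]
    exact Helper5.Hex.Lam_le hm
  -- the conjecture says that the constant is the hexagonal one
  have hiff : HexagonalConjecture ↔ Helper5.Hex.Lam = hexConst := by
    constructor
    · intro hQ
      have hb : IsConnected (Metric.ball (0 : EuclideanSpace ℝ (Fin 2)) 1) :=
        Metric.isConnected_ball one_pos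
      have hf : volume (Metric.ball (0 : EuclideanSpace ℝ (Fin 2)) 1) ≠ ⊤ :=
        (Metric.isBounded_ball.measure_lt_top).ne
      have h4 := tendsto_nhds_unique (main _ Metric.isOpen_ball hb.nonempty hf)
        (hQ _ Metric.isOpen_ball hb Metric.isBounded_ball)
      have h5 := Helper5.Hex.volume_toReal_pos Metric.isOpen_ball hb.nonempty hf
      exact (div_left_inj' h5.ne').1 h4
    · intro h Ω g1 g2 g3
      rw [← h]
      exact main Ω g1 g2.nonempty (g3.measure_lt_top).ne
  refine ⟨?_, ?_⟩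
  · obtain ⟨C, hC⟩ := Helper5.Hex.rate
    refine ⟨Helper5.Hex.Lam, C, fun m hm => ⟨hlow m hm, ?_⟩⟩
    rw [unitSquare_eq]
    exact hC m hm
  · rw [hiff]
    constructor
    · intro h m hm D hD1 hD2
      by_contra hc
      push Not at hc
      -- all members are below, so is the supremum
      haveI : Nonempty (Fin m) := ⟨⟨0, by omega⟩⟩
      have h1 : minEnergy unitSquare m ≤ ⨆ i, eig (D i) :=
        csInf_le (Helper5.Hex.bddE unitSquare m) ⟨D, hD1, hD2, rfl⟩
      obtain ⟨i, hi⟩ := exists_eq_ciSup_of_finite (f := fun i => eig (D i))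
      have h2 := hlow m hm
      rw [h] at h2
      have h3 := hc i
      rw [← hi] at h1
      linarith
    · intro h
      refine le_antisymm hle ?_
      refine le_of_forall_pos_le_add fun ε hε => ?_
      obtain ⟨m, hm1, hm2⟩ := Helper5.Hex.exists_near_Lam hε
      have hmpos : (0 : ℝ) < m := by exact_mod_cast hm1
      obtain ⟨P, hP, hP2⟩ := Helper5.Hex.exists_fam_near (Helper5.Hex.isOpen_sq 0 1)
        (Helper5.Hex.nonempty_sq 0 one_pos) m
        (ε := (Helper5.Hex.Lam + ε) * m - Helper5.Hex.minEnergy (Helper5.Hex.sq 0 1) m)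
        (by linarith)
      obtain ⟨i, hi⟩ := h m hm1 P (fun i => ⟨hP.op i, hP.ne i, by
        rw [unitSquare_eq]; exact hP.sub i⟩) hP.disj
      have h1 : eig (P i) < (Helper5.Hex.Lam + ε) * m := by
        have := hP2 i
        have e : Helper5.Hex.eig (P i) = eig (P i) := rfl
        rw [e] at this
        linarith
      have h2 : hexConst * m ≤ (Helper5.Hex.Lam + ε) * m := hi.trans h1.le
      exact le_of_mul_le_mul_right h2 hmpos

end Pool.Agent.Results.MP_40e762_an.SquareCriterion
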