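import Pool.Agent.Helper5.Hex.Rate

/-!
# MP_40e762_an: the limit in the hexagonal conjecture exists and is universal

There is one constant `Λ > 0` such that `𝔏_k(Ω) / k → Λ / |Ω|` for every nonempty open plane set
`Ω` of finite area. Hence the hexagonal conjecture for a single such set (say for the unit square
or for a disc) is equivalent to the hexagonal conjecture for all bounded domains.
-/

open MeasureTheory Filter Topology

namespace Pool.Agent.Results.MP_40e762_an.UniversalLimit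

/-- The first Dirichlet eigenvalue of an open plane set, as the infimum of the Rayleigh quotient
over the nonzero compactly supported `C¹` functions with support inside the set. -/
noncomputable def eig (D : Set (EuclideanSpace ℝ (Fin 2))) : ℝ :=
  sInf {r : ℝ | ∃ φ : EuclideanSpace ℝ (Fin 2) → ℝ,
    ContDiff ℝ 1 φ ∧ HasCompactSupport φ ∧ tsupport φ ⊆ D ∧ φ ≠ 0 ∧
    r = (∫ x, ‖fderiv ℝ φ x‖ ^ 2) / (∫ x, φ x ^ 2)}

/-- The minimal `k`-partition energy `𝔏_k(Ω)` (max version). -/
noncomputable def minEnergy (Ω : Set (EuclideanSpace ℝ (Fin 2))) (k : ℕ) : ℝ :=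
  sInf {r : ℝ | ∃ D : Fin k → Set (EuclideanSpace ℝ (Fin 2)),
    (∀ i, IsOpen (D i) ∧ (D i).Nonempty ∧ D i ⊆ Ω) ∧
    Pairwise (Function.onFun Disjoint D) ∧ r = ⨆ i, eig (D i)}

/-- The open regular hexagon of side 1. -/
def hexagon : Set (EuclideanSpace ℝ (Fin 2)) :=
  {x : EuclideanSpace ℝ (Fin 2) | ∀ j : Fin 3,
    |inner ℝ x (EuclideanSpace.single 0 (Real.cos (((j : ℕ) : ℝ) * Real.pi / 3))
      + EuclideanSpace.single 1 (Real.sin (((j : ℕ) : ℝ) * Real.pi / 3)))| < Real.sqrt 3 / 2}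

/-- The first Dirichlet eigenvalue of the regular hexagon of area 1 (by scaling). -/
noncomputable def hexConst : ℝ := eig hexagon * (volume hexagon).toReal

/-- The hexagonal conjecture (Q1). -/
def HexagonalConjecture : Prop :=
  ∀ Ω : Set (EuclideanSpace ℝ (Fin 2)), IsOpen Ω → IsConnected Ω → Bornology.IsBounded Ω →
    Tendsto (fun k : ℕ => minEnergy Ω k / (k : ℝ)) atTop (𝓝 (hexConst / (volume Ω).toReal))

/-- There is `Λ > 0` with `𝔏_k(Ω) / k → Λ / |Ω|` for all nonempty open `Ω` of finite area; and for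
every such `Ω` the hexagonal conjecture is equivalent to its instance for this single `Ω`. -/
theorem result :
    (∃ Λ : ℝ, 0 < Λ ∧ ∀ Ω : Set (EuclideanSpace ℝ (Fin 2)), IsOpen Ω → Ω.Nonempty →
      volume Ω ≠ ⊤ →
      Tendsto (fun k : ℕ => minEnergy Ω k / (k : ℝ)) atTop (𝓝 (Λ / (volume Ω).toReal))) ∧
    (∀ Ω : Set (EuclideanSpace ℝ (Fin 2)), IsOpen Ω → Ω.Nonempty → volume Ω ≠ ⊤ →
      (HexagonalConjecture ↔
        Tendsto (fun k : ℕ => minEnergy Ω k / (k : ℝ)) atTop
          (𝓝 (hexConst / (volume Ω).toReal)))) := by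
  have main : ∀ Ω : Set (EuclideanSpace ℝ (Fin 2)), IsOpen Ω → Ω.Nonempty → volume Ω ≠ ⊤ →
      Tendsto (fun k : ℕ => minEnergy Ω k / (k : ℝ)) atTop
        (𝓝 (Helper5.Hex.Lam / (volume Ω).toReal)) :=
    fun Ω h1 h2 h3 => Helper5.Hex.tendsto_minEnergy h1 h2 h3
  refine ⟨⟨Helper5.Hex.Lam, Helper5.Hex.Lam_pos, main⟩, fun Ω h1 h2 h3 => ?_⟩
  -- the value of the constant is determined by any single set
  have uniq : ∀ Ω' : Set (EuclideanSpace ℝ (Fin 2)), IsOpen Ω' → Ω'.Nonempty →
      volume Ω' ≠ ⊤ → Tendsto (fun k : ℕ => minEnergy Ω' k / (k : ℝ)) atTop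
          (𝓝 (hexConst / (volume Ω').toReal)) → Helper5.Hex.Lam = hexConst := by
    intro Ω' g1 g2 g3 h
    have h4 := tendsto_nhds_unique (main Ω' g1 g2 g3) h
    have h5 : 0 < (volume Ω').toReal := Helper5.Hex.volume_toReal_pos g1 g2 g3
    exact (div_left_inj' h5.ne').1 h4
  constructor
  · intro hQ
    -- apply the conjecture to the unit square
    have hsq : IsConnected (Metric.ball (0 : EuclideanSpace ℝ (Fin 2)) 1) :=
      Metric.isConnected_ball one_pos
    have h4 := uniq _ Metric.isOpen_ball hsq.nonempty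
      (Metric.isBounded_ball.measure_lt_top).ne (hQ _ Metric.isOpen_ball hsq Metric.isBounded_ball)
    rw [← h4]
    exact main Ω h1 h2 h3
  · intro h Ω' g1 g2 g3
    have h4 := uniq Ω h1 h2 h3 h
    rw [← h4]
    exact main Ω' g1 g2.nonempty (g3.measure_lt_top).ne

end Pool.Agent.Results.MP_40e762_an.UniversalLimit
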